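import Mathlib
import Pool.Agent.Q82.BB.Stm

set_option autoImplicit false

open MeasureTheory Filter Topology Set
open Pool.Agent.Q82.BB

namespace Pool.Agent.Q214.BB

theorem ex_mul_le (τ ξ η : ℝ) (hτ : 0 ≤ τ) : ex η τ * ex (ξ - η) τ ≤ ex ξ τ := by
  unfold ex
  rw [← Real.exp_add]
  apply Real.exp_le_exp.mpr
  have h1 : |ξ| ≤ |η| + |ξ - η| := by
    have := abs_add_le η (ξ - η)
    rwa [add_sub_cancel] at this
  nlinarith

theorem pw (p : ℕ) (a b s : ℝ) (ha : 1 ≤ a) (hb : 1 ≤ b) (hs : 1 ≤ s) (h : s ≤ a + b) :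
    1 / (a ^ (p + 1) * b ^ (p + 1)) ≤ 2 ^ p / s ^ p * ((a ^ 2)⁻¹ + (b ^ 2)⁻¹) := by
  have ha0 : 0 < a := by linarith
  have hb0 : 0 < b := by linarith
  have hs0 : 0 < s := by linarith
  have h1 : s ≤ 2 * (a * b) := by nlinarith
  have h2 : s ^ p ≤ 2 ^ p * (a ^ p * b ^ p) := by
    calc s ^ p ≤ (2 * (a * b)) ^ p := pow_le_pow_left₀ hs0.le h1 p
      _ = _ := by rw [mul_pow, mul_pow]
  have h3 : 1 / (a ^ p * b ^ p) ≤ 2 ^ p / s ^ p := by
    rw [div_le_div_iff₀ (by positivity) (by positivity), one_mul]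
    exact h2
  have h4 : 1 / (a * b) ≤ (a ^ 2)⁻¹ + (b ^ 2)⁻¹ := by
    have e : (a ^ 2)⁻¹ + (b ^ 2)⁻¹ - 1 / (a * b) =
        (a ^ 2 + b ^ 2 - a * b) / (a ^ 2 * b ^ 2) := by
      field_simp
      try ring
    have : 0 ≤ (a ^ 2 + b ^ 2 - a * b) / (a ^ 2 * b ^ 2) := by
      apply div_nonneg _ (by positivity)
      nlinarith [sq_nonneg (a - b), mul_pos ha0 hb0]
    linarith
  have h5 : 1 / (a ^ (p + 1) * b ^ (p + 1)) = 1 / (a ^ p * b ^ p) * (1 / (a * b)) := by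
    rw [pow_succ, pow_succ]
    field_simp
  rw [h5]
  exact mul_le_mul h3 h4 (by positivity) (by positivity)

/-- JOB CVB -/
theorem cvb : S_CVB := by
  intro p
  have hh : Integrable (fun x : ℝ => (1 + ‖x‖) ^ (-(2 : ℝ))) :=
    integrable_one_add_norm (by simp)
  have hJ : 0 ≤ ∫ x : ℝ, (1 + ‖x‖) ^ (-(2 : ℝ)) :=
    integral_nonneg fun x => by positivity
  refine ⟨2 ^ p * (2 * ∫ x : ℝ, (1 + ‖x‖) ^ (-(2 : ℝ))) + 1, by positivity, ?_⟩
  intro f g A B τ hτ hA hB hf hg hfb hgb ξ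
  have hex : ∀ x, 0 < ex x τ := fun x => Real.exp_pos _
  set c : ℝ := A * B * (ex ξ τ / (1 + |ξ|) ^ p) * 2 ^ p with hc
  have hc0 : 0 ≤ c := by
    have := (hex ξ).le
    positivity
  have hG : Integrable (fun η : ℝ => c * ((1 + ‖η‖) ^ (-(2 : ℝ)) +
      (1 + ‖ξ - η‖) ^ (-(2 : ℝ)))) := (hh.add (hh.comp_sub_left ξ)).const_mul c
  have e2 : ∀ x : ℝ, (1 + ‖x‖) ^ (-(2 : ℝ)) = ((1 + |x|) ^ 2)⁻¹ := by
    intro x
    rw [Real.norm_eq_abs, Real.rpow_neg (by positivity)]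
    congr 1
    exact_mod_cast Real.rpow_natCast (1 + |x|) 2
  have hb : ∀ η, ‖f η * g (ξ - η)‖ ≤ c * ((1 + ‖η‖) ^ (-(2 : ℝ)) +
      (1 + ‖ξ - η‖) ^ (-(2 : ℝ))) := by
    intro η
    rw [norm_mul, e2, e2]
    have a1 : 1 ≤ 1 + |η| := by linarith [abs_nonneg η]
    have b1 : 1 ≤ 1 + |ξ - η| := by linarith [abs_nonneg (ξ - η)]
    have s1 : 1 ≤ 1 + |ξ| := by linarith [abs_nonneg ξ]
    have s2 : 1 + |ξ| ≤ (1 + |η|) + (1 + |ξ - η|) := by
      have := abs_add_le η (ξ - η)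
      rw [add_sub_cancel] at this
      linarith
    have h1 := pw p _ _ _ a1 b1 s1 s2
    have h2 : ‖f η‖ * ‖g (ξ - η)‖ ≤ (A * (ex η τ / (1 + |η|) ^ (p + 1))) *
        (B * (ex (ξ - η) τ / (1 + |ξ - η|) ^ (p + 1))) :=
      mul_le_mul (hfb η) (hgb (ξ - η)) (norm_nonneg _)
        (mul_nonneg hA (div_nonneg (hex η).le (by positivity)))
    refine h2.trans ?_
    have h3 : (A * (ex η τ / (1 + |η|) ^ (p + 1))) *
        (B * (ex (ξ - η) τ / (1 + |ξ - η|) ^ (p + 1))) =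
        A * B * (ex η τ * ex (ξ - η) τ) *
          (1 / ((1 + |η|) ^ (p + 1) * (1 + |ξ - η|) ^ (p + 1))) := by
      field_simp
    rw [h3]
    have h4 : A * B * (ex η τ * ex (ξ - η) τ) *
          (1 / ((1 + |η|) ^ (p + 1) * (1 + |ξ - η|) ^ (p + 1))) ≤
        A * B * ex ξ τ * (2 ^ p / (1 + |ξ|) ^ p *
          (((1 + |η|) ^ 2)⁻¹ + ((1 + |ξ - η|) ^ 2)⁻¹)) := by
      refine mul_le_mul ?_ h1 (by positivity) ?_
      · exact mul_le_mul_of_nonneg_left (ex_mul_le τ ξ η hτ) (mul_nonneg hA hB)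
      · exact mul_nonneg (mul_nonneg hA hB) (hex ξ).le
    refine h4.trans (le_of_eq ?_)
    rw [hc]
    ring
  have hm : AEStronglyMeasurable (fun η => f η * g (ξ - η)) volume :=
    (hf.mul (hg.comp (continuous_const.sub continuous_id))).aestronglyMeasurable
  refine ⟨hG.mono' hm (Filter.Eventually.of_forall hb), ?_⟩
  refine (norm_integral_le_of_norm_le hG (Filter.Eventually.of_forall hb)).trans ?_
  rw [integral_const_mul, integral_add hh (hh.comp_sub_left ξ),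
    integral_sub_left_eq_self (fun x : ℝ => (1 + ‖x‖) ^ (-(2 : ℝ))) volume ξ, hc]
  have h6 : 0 ≤ A * B * (ex ξ τ / (1 + |ξ|) ^ p) := by
    have := (hex ξ).le
    positivity
  nlinarith

end Pool.Agent.Q214.BB
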